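import Pool.Agent.Lib.MP_4a593f_gt.BH.Mol.Com
import Mathlib.Analysis.Calculus.ContDiff.RCLike

/-!
Limits of mollifications and of commutators in `L²`, project BH.
-/

set_option linter.unusedSectionVars false

namespace Pool.Agent.Lib.MP_4a593f_gt.BH.Mol

open MeasureTheory Filter Topology ContinuousLinearMap Metric
open scoped Convolution

variable {E : Type*} [NormedAddCommGroup E] [InnerProductSpace ℝ E] [FiniteDimensional ℝ E]
  [MeasurableSpace E] [BorelSpace E]
variable {F : Type*} [NormedAddCommGroup F] [NormedSpace ℝ F] [CompleteSpace F]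
variable {G : Type*} [NormedAddCommGroup G] [NormedSpace ℝ G] [CompleteSpace G]

theorem mol_eq_add (s : ℝ) (v : E → F) (x : E) : mol s v x = ∫ t, kap s t • v (x + t) := by
  unfold mol
  rw [← integral_neg_eq_self (fun t => kap s t • v (x + t)) volume]
  refine integral_congr_ae (ae_of_all _ fun t => ?_)
  simp only [kap_neg, sub_eq_add_neg]

/-- A function of compact support with continuous derivative is Lipschitz. -/
theorem exists_lip {v : E → F} (hv : ContDiff ℝ 1 v) (vs : HasCompactSupport v) :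
    ∃ L : ℝ, 0 ≤ L ∧ ∀ x y, ‖v x - v y‖ ≤ L * ‖x - y‖ := by
  obtain ⟨C, hC⟩ := ContDiff.lipschitzWith_of_hasCompactSupport vs hv one_ne_zero
  refine ⟨C, C.2, fun x y => ?_⟩
  have := hC.dist_le_mul x y
  rwa [dist_eq_norm, dist_eq_norm] at this

theorem mol_sub_norm_le {s L : ℝ} (hs : 0 < s) (hL0 : 0 ≤ L) {v : E → F}
    (vc : Continuous v) (hL : ∀ x y, ‖v x - v y‖ ≤ L * ‖x - y‖) (x : E) :
    ‖mol s v x - v x‖ ≤ L / s := by
  have i1 : Integrable fun t : E => kap s t • v x :=
    (kap_integrable hs).smul_const (v x)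
  have h1 : mol s v x - v x = ∫ t, kap s t • (v (x - t) - v x) := by
    have h2 : v x = ∫ t : E, kap s t • v x := by
      rw [integral_smul_const, integral_kap hs, one_smul]
    conv_lhs => rw [h2]
    unfold mol
    rw [← integral_sub (kap_smul_integrable hs vc x) i1]
    refine integral_congr_ae (ae_of_all _ fun t => ?_)
    simp only [smul_sub]
  rw [h1]
  have h3 : ∫ t : E, kap s t * (L / s) = L / s := by
    rw [integral_mul_const, integral_kap hs, one_mul]
  rw [← h3]
  refine norm_integral_le_of_norm_le ((kap_integrable hs).mul_const _) (ae_of_all _ fun t => ?_)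
  rw [norm_smul, Real.norm_eq_abs, abs_of_nonneg (kap_nonneg hs.le t)]
  by_cases ht : 1 / s ≤ ‖t‖
  · rw [kap_zero hs ht, zero_mul, zero_mul]
  · refine mul_le_mul_of_nonneg_left ?_ (kap_nonneg hs.le t)
    have h4 := hL (x - t) x
    rw [sub_sub_cancel_left, norm_neg] at h4
    refine h4.trans ?_
    rw [div_eq_mul_one_div]
    exact mul_le_mul_of_nonneg_left (not_le.1 ht).le hL0

/-- `∫ ‖mol s v - v‖² = O(1 / s²)` for Lipschitz `v`. -/
theorem mol_sub_sq_le {s L : ℝ} (hs : 1 ≤ s) (hL0 : 0 ≤ L) {v : E → F}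
    (vc : Continuous v) (vs : HasCompactSupport v) (hL : ∀ x y, ‖v x - v y‖ ≤ L * ‖x - y‖) :
    ∫ x, ‖mol s v x - v x‖ ^ 2 ≤
      (L / s) ^ 2 * (volume (cthickening 1 (tsupport v) : Set E)).toReal := by
  have hs0 : 0 < s := by linarith
  have hK : IsCompact (cthickening 1 (tsupport v) : Set E) := vs.isCompact.cthickening
  have h1 : ∀ x, x ∉ (cthickening 1 (tsupport v) : Set E) → ‖mol s v x - v x‖ ^ 2 = 0 := by
    intro x hx
    have h2 : mol s v x = 0 := by
      refine mol_support hs0 (K := tsupport v)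
        (fun y hy => image_eq_zero_of_notMem_tsupport hy) fun h => hx ?_
      refine cthickening_mono ?_ _ h
      rw [div_le_one hs0]
      exact hs
    have h3 : v x = 0 := image_eq_zero_of_notMem_tsupport fun h =>
      hx (self_subset_cthickening _ h)
    rw [h2, h3]; simp
  have hc : Continuous fun x => ‖mol s v x - v x‖ ^ 2 :=
    ((mol_continuous hs0 vc).sub vc).norm.pow 2
  rw [← setIntegral_eq_integral_of_forall_compl_eq_zero h1]
  calc ∫ x in (cthickening 1 (tsupport v) : Set E), ‖mol s v x - v x‖ ^ 2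
      ≤ ∫ x in (cthickening 1 (tsupport v) : Set E), (L / s) ^ 2 := by
        refine setIntegral_mono (hc.continuousOn.integrableOn_compact hK)
          (integrableOn_const (hs := hK.measure_lt_top.ne)) fun x => ?_
        exact pow_le_pow_left₀ (norm_nonneg _) (mol_sub_norm_le hs0 hL0 vc hL x) 2
    _ = _ := by
        rw [setIntegral_const, smul_eq_mul, mul_comm]
        rfl

theorem tendsto_rate (L C : ℝ) : Tendsto (fun s : ℝ => (L / s) ^ 2 * C) atTop (𝓝 0) := by
  have h1 : Tendsto (fun s : ℝ => L / s) atTop (𝓝 0) := tendsto_const_nhds.div_atTop tendsto_id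
  have h2 := (h1.pow 2).mul_const C
  simpa using h2

/-- The mollification converges in `L²`. -/
theorem mol_tendsto {v : E → F} (hv : ContDiff ℝ 1 v) (vs : HasCompactSupport v) :
    Tendsto (fun s => ∫ x, ‖mol s v x - v x‖ ^ 2) atTop (𝓝 0) := by
  obtain ⟨L, hL0, hL⟩ := exists_lip hv vs
  refine tendsto_of_tendsto_of_tendsto_of_le_of_le' tendsto_const_nhds
    (tendsto_rate L (volume (cthickening 1 (tsupport v) : Set E)).toReal)
    (Eventually.of_forall fun s => integral_nonneg fun x => sq_nonneg _) ?_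
  filter_upwards [eventually_ge_atTop (1 : ℝ)] with s hs
  exact mol_sub_sq_le hs hL0 hv.continuous vs hL

/-- The derivative of the mollification converges in `L²`. -/
theorem mol_fderiv_tendsto {v : E → F} (hv : ContDiff ℝ 2 v) (vs : HasCompactSupport v) :
    Tendsto (fun s => ∫ x, ‖fderiv ℝ (mol s v) x - fderiv ℝ v x‖ ^ 2) atTop (𝓝 0) := by
  have h1 := mol_tendsto (hv.fderiv_right (m := 1) (by norm_num)) (vs.fderiv ℝ)
  refine h1.congr fun s => ?_
  refine integral_congr_ae (ae_of_all _ fun x => ?_)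
  simp only []
  rw [mol_fderiv s (hv.of_le (by norm_num)) vs]

theorem integral_sq_add_le {a b : E → F} (ac : Continuous a) (as : HasCompactSupport a)
    (bc : Continuous b) (bs : HasCompactSupport b) :
    ∫ x, ‖a x + b x‖ ^ 2 ≤ 2 * (∫ x, ‖a x‖ ^ 2) + 2 * ∫ x, ‖b x‖ ^ 2 := by
  have ia : Integrable fun x => ‖a x‖ ^ 2 := by
    have h1 : Continuous fun x => ‖a x‖ ^ 2 := by fun_prop
    exact h1.integrable_of_hasCompactSupport
      (as.comp_left (g := fun r : F => ‖r‖ ^ 2) (by simp))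
  have ib : Integrable fun x => ‖b x‖ ^ 2 := by
    have h1 : Continuous fun x => ‖b x‖ ^ 2 := by fun_prop
    exact h1.integrable_of_hasCompactSupport
      (bs.comp_left (g := fun r : F => ‖r‖ ^ 2) (by simp))
  rw [← integral_const_mul, ← integral_const_mul, ← integral_add (ia.const_mul 2) (ib.const_mul 2)]
  refine integral_mono_of_nonneg (ae_of_all _ fun x => sq_nonneg _)
    ((ia.const_mul 2).add (ib.const_mul 2)) (ae_of_all _ fun x => ?_)
  simp only []
  have h1 := norm_add_le (a x) (b x)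
  have h2 : ‖a x + b x‖ ^ 2 ≤ (‖a x‖ + ‖b x‖) ^ 2 := pow_le_pow_left₀ (norm_nonneg _) h1 2
  nlinarith [sq_nonneg (‖a x‖ - ‖b x‖)]

/-- The derivative of the commutator is a sum of two commutators. -/
theorem com_fderiv {s : ℝ} (hs : 0 < s) {B : E → F →L[ℝ] G} {v : E → F}
    (hB : ContDiff ℝ 1 B) (hv : ContDiff ℝ 1 v) (vs : HasCompactSupport v) (x : E) :
    fderiv ℝ (com s B v) x = com s (fun y => (fderiv ℝ B y).flip) v x +
      com s (fun y => compL ℝ E F G (B y)) (fderiv ℝ v) x := by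
  have hm : HasFDerivAt (mol s v) (mol s (fderiv ℝ v) x) x := mol_hasFDerivAt s hv vs x
  have hbv : ContDiff ℝ 1 fun y => B y (v y) := hB.clm_apply hv
  have hbs : HasCompactSupport fun y => B y (v y) := by
    refine vs.mono fun y hy h => hy ?_
    simp [h]
  have hm2 := mol_hasFDerivAt s hbv hbs x
  have hBd : HasFDerivAt B (fderiv ℝ B x) x := ((hB.differentiable one_ne_zero) x).hasFDerivAt
  have h2 := ((hBd.clm_apply hm).sub hm2).fderiv
  have h3 : fderiv ℝ (com s B v) x = _ := h2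
  have h4 : ∀ y, fderiv ℝ (fun y => B y (v y)) y =
      (fderiv ℝ B y).flip (v y) + compL ℝ E F G (B y) (fderiv ℝ v y) := by
    intro y
    have h5 := (((hB.differentiable one_ne_zero) y).hasFDerivAt.clm_apply
      ((hv.differentiable one_ne_zero) y).hasFDerivAt).fderiv
    rw [h5, add_comm]
    rfl
  have c1 : Continuous fun y => (fderiv ℝ B y).flip (v y) := by
    have h6 : Continuous fun y => (flipₗᵢ ℝ E F G) (fderiv ℝ B y) :=
      (flipₗᵢ ℝ E F G).continuous.comp (hB.continuous_fderiv one_ne_zero)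
    exact h6.clm_apply hv.continuous
  have c2 : Continuous fun y => compL ℝ E F G (B y) (fderiv ℝ v y) :=
    ((compL ℝ E F G).continuous.comp hB.continuous).clm_apply (hv.continuous_fderiv one_ne_zero)
  rw [h3, show fderiv ℝ (fun y => B y (v y)) = fun y => (fderiv ℝ B y).flip (v y) +
    compL ℝ E F G (B y) (fderiv ℝ v y) from funext h4, mol_add hs c1 c2]
  unfold com
  simp only [compL_apply]
  abel

/-- The derivative of the commutator is `O(1 / s)` for a fixed smooth function. -/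
theorem com_fderiv_sq_le' {s L L' : ℝ} (hs : 0 < s) (hL0 : 0 ≤ L) (hL0' : 0 ≤ L')
    {B : E → F →L[ℝ] G} {v : E → F} (hB : ContDiff ℝ 1 B)
    (hL : ∀ x y, ‖B x - B y‖ ≤ L * ‖x - y‖)
    (hL' : ∀ x y, ‖fderiv ℝ B x - fderiv ℝ B y‖ ≤ L' * ‖x - y‖) (hv : ContDiff ℝ 1 v)
    (vs : HasCompactSupport v) :
    ∫ x, ‖fderiv ℝ (com s B v) x‖ ^ 2 ≤
      2 * ((L' / s) ^ 2 * ∫ x, ‖v x‖ ^ 2) + 2 * ((L / s) ^ 2 * ∫ x, ‖fderiv ℝ v x‖ ^ 2) := by
  have b1 : Continuous fun y => (fderiv ℝ B y).flip :=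
    (flipₗᵢ ℝ E F G).continuous.comp (hB.continuous_fderiv one_ne_zero)
  have b2 : Continuous fun y => compL ℝ E F G (B y) :=
    (compL ℝ E F G).continuous.comp hB.continuous
  have l1 : ∀ x y, ‖(fderiv ℝ B x).flip - (fderiv ℝ B y).flip‖ ≤ L' * ‖x - y‖ := by
    intro x y
    have h1 : (fderiv ℝ B x).flip - (fderiv ℝ B y).flip = (fderiv ℝ B x - fderiv ℝ B y).flip := by
      ext; rfl
    rw [h1]
    exact (opNorm_flip (fderiv ℝ B x - fderiv ℝ B y)).le.trans (hL' x y)
  have l2 : ∀ x y, ‖compL ℝ E F G (B x) - compL ℝ E F G (B y)‖ ≤ L * ‖x - y‖ := by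
    intro x y
    rw [← map_sub]
    have h1 : ‖compL ℝ E F G (B x - B y)‖ ≤ ‖B x - B y‖ := by
      refine opNorm_le_bound _ (norm_nonneg _) fun g => ?_
      rw [compL_apply]
      exact opNorm_comp_le _ _
    exact h1.trans (hL x y)
  have vc' := hv.continuous_fderiv one_ne_zero
  have h1 := com_sq_le hs hL0' b1 l1 hv.continuous vs
  have h2 := com_sq_le hs hL0 b2 l2 vc' (vs.fderiv ℝ)
  have h3 := integral_sq_add_le
    (com_contDiff (m := 0) hs (contDiff_zero.2 b1) hv.continuous).continuous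
    (com_compact hs _ vs)
    (com_contDiff (m := 0) hs (contDiff_zero.2 b2) vc').continuous
    (com_compact hs (fun y => compL ℝ E F G (B y)) (vs.fderiv ℝ))
  refine le_trans (le_of_eq ?_) (h3.trans (add_le_add (mul_le_mul_of_nonneg_left h1 (by norm_num))
    (mul_le_mul_of_nonneg_left h2 (by norm_num))))
  refine integral_congr_ae (ae_of_all _ fun x => ?_)
  simp only []
  rw [com_fderiv hs hB hv vs]

/-- **Packaged bounds**: `B` with compact support, all `s ≥ 1`. -/
theorem com_bound {B : E → F →L[ℝ] G} (hB : ContDiff ℝ 1 B) (hBs : HasCompactSupport B) :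
    ∃ C : ℝ, 0 ≤ C ∧ ∀ s : ℝ, 1 ≤ s → ∀ v : E → F, Continuous v → HasCompactSupport v →
      ∫ x, ‖com s B v x‖ ^ 2 ≤ C * ∫ x, ‖v x‖ ^ 2 ∧
      ∫ x, ‖fderiv ℝ (com s B v) x‖ ^ 2 ≤ C * ∫ x, ‖v x‖ ^ 2 := by
  obtain ⟨L, hL0, hL⟩ := exists_lip hB hBs
  refine ⟨L ^ 2 + (L * (1 + dk E 1)) ^ 2, by positivity, fun s hs v vc vs => ?_⟩
  have hs0 : 0 < s := by linarith
  have hv : 0 ≤ ∫ x, ‖v x‖ ^ 2 := integral_nonneg fun x => sq_nonneg _
  constructor
  · refine (com_sq_le hs0 hL0 hB.continuous hL vc vs).trans (mul_le_mul_of_nonneg_right ?_ hv)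
    have h1 : (L / s) ^ 2 ≤ L ^ 2 :=
      pow_le_pow_left₀ (by positivity) (div_le_self hL0 hs) 2
    have h2 := sq_nonneg (L * (1 + dk E 1))
    linarith
  · refine (com_fderiv_sq_le hs0 hL0 hB hL vc vs).trans (mul_le_mul_of_nonneg_right ?_ hv)
    rw [dk_eq hs0, ← dk_eq (E := E) one_pos]
    have h2 := sq_nonneg L
    linarith

theorem com_tendsto {B : E → F →L[ℝ] G} (hB : ContDiff ℝ 1 B) (hBs : HasCompactSupport B)
    {v : E → F} (vc : Continuous v) (vs : HasCompactSupport v) :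
    Tendsto (fun s => ∫ x, ‖com s B v x‖ ^ 2) atTop (𝓝 0) := by
  obtain ⟨L, hL0, hL⟩ := exists_lip hB hBs
  refine tendsto_of_tendsto_of_tendsto_of_le_of_le' tendsto_const_nhds
    (tendsto_rate L (∫ x, ‖v x‖ ^ 2))
    (Eventually.of_forall fun s => integral_nonneg fun x => sq_nonneg _) ?_
  filter_upwards [eventually_gt_atTop (0 : ℝ)] with s hs
  exact com_sq_le hs hL0 hB.continuous hL vc vs

theorem com_fderiv_tendsto {B : E → F →L[ℝ] G} (hB : ContDiff ℝ 2 B) (hBs : HasCompactSupport B)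
    {v : E → F} (hv : ContDiff ℝ 1 v) (vs : HasCompactSupport v) :
    Tendsto (fun s => ∫ x, ‖fderiv ℝ (com s B v) x‖ ^ 2) atTop (𝓝 0) := by
  have hB1 : ContDiff ℝ 1 B := hB.of_le (by norm_num)
  obtain ⟨L, hL0, hL⟩ := exists_lip hB1 hBs
  obtain ⟨L', hL0', hL'⟩ := exists_lip (hB.fderiv_right (m := 1) (by norm_num)) (hBs.fderiv ℝ)
  have h1 := ((tendsto_rate L' (∫ x, ‖v x‖ ^ 2)).const_mul 2).add
    ((tendsto_rate L (∫ x, ‖fderiv ℝ v x‖ ^ 2)).const_mul 2)
  rw [mul_zero, add_zero] at h1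
  refine tendsto_of_tendsto_of_tendsto_of_le_of_le' tendsto_const_nhds h1
    (Eventually.of_forall fun s => integral_nonneg fun x => sq_nonneg _) ?_
  filter_upwards [eventually_gt_atTop (0 : ℝ)] with s hs
  exact com_fderiv_sq_le' hs hL0 hL0' hB1 hL hL' hv vs

end Pool.Agent.Lib.MP_4a593f_gt.BH.Mol
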