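import Mathlib.Analysis.Calculus.ContDiff.Convolution
import Mathlib.Analysis.Calculus.BumpFunction.Normed
import Mathlib.Analysis.Calculus.BumpFunction.InnerProduct
import Mathlib.MeasureTheory.Measure.Haar.NormedSpace
import Mathlib.MeasureTheory.Measure.Haar.InnerProductSpace
import Mathlib.MeasureTheory.Measure.Haar.Unique
import Mathlib.Algebra.QuadraticDiscriminant

/-!
Mollifiers on a finite dimensional inner product space `E`, for functions with values in a Banach
space (project BH). `kap s` is the kernel of radius `1 / s`, `mol s v` the convolution with it.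
-/

set_option linter.unusedSectionVars false

namespace Pool.Agent.Lib.MP_4a593f_gt.BH.Mol

open MeasureTheory Filter Topology ContinuousLinearMap Metric
open scoped Convolution

variable {E : Type*} [NormedAddCommGroup E] [InnerProductSpace ℝ E] [FiniteDimensional ℝ E]
  [MeasurableSpace E] [BorelSpace E]
variable {F : Type*} [NormedAddCommGroup F] [NormedSpace ℝ F]
variable {G : Type*} [NormedAddCommGroup G] [NormedSpace ℝ G]

variable (E) in
/-- The base bump. -/
noncomputable def bump0 : ContDiffBump (0 : E) := ⟨1 / 2, 1, by norm_num, by norm_num⟩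

/-- The base kernel: smooth, nonnegative, even, supported in the unit ball, integral 1. -/
noncomputable def kap0 (z : E) : ℝ := (bump0 E).normed volume z

/-- The scaled kernel. -/
noncomputable def kap (s : ℝ) (z : E) : ℝ := s ^ (Module.finrank ℝ E) * kap0 (s • z)

/-- The mollification. -/
noncomputable def mol (s : ℝ) (v : E → F) (x : E) : F := ∫ t, kap s t • v (x - t)

theorem kap0_nonneg (z : E) : 0 ≤ kap0 z := (bump0 E).nonneg_normed z

theorem kap0_neg (z : E) : kap0 (-z) = kap0 z := (bump0 E).normed_neg z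

theorem kap0_contDiff {m : ℕ∞} : ContDiff ℝ m (kap0 : E → ℝ) := (bump0 E).contDiff_normed

theorem kap0_continuous : Continuous (kap0 : E → ℝ) := (bump0 E).continuous_normed

theorem kap0_compact : HasCompactSupport (kap0 : E → ℝ) := (bump0 E).hasCompactSupport_normed

theorem kap0_zero {z : E} (hz : 1 ≤ ‖z‖) : kap0 z = 0 := by
  have h := (bump0 E).support_normed_eq (μ := volume)
  by_contra h0
  have h1 : z ∈ Function.support ((bump0 E).normed volume) := h0
  rw [h, mem_ball_zero_iff] at h1
  have h2 : (bump0 E).rOut = 1 := rfl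
  rw [h2] at h1
  linarith

theorem integral_kap0 : ∫ z : E, kap0 z = 1 := (bump0 E).integral_normed

theorem kap_nonneg {s : ℝ} (hs : 0 ≤ s) (z : E) : 0 ≤ kap s z :=
  mul_nonneg (pow_nonneg hs _) (kap0_nonneg _)

theorem kap_neg (s : ℝ) (z : E) : kap s (-z) = kap s z := by
  rw [kap, kap, smul_neg, kap0_neg]

theorem kap_contDiff (s : ℝ) {m : ℕ∞} : ContDiff ℝ m (kap s : E → ℝ) :=
  contDiff_const.mul (kap0_contDiff.comp (contDiff_const_smul s))

theorem kap_continuous (s : ℝ) : Continuous (kap s : E → ℝ) :=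
  continuous_const.mul (kap0_continuous.comp (continuous_const_smul s))

theorem kap_zero {s : ℝ} (hs : 0 < s) {z : E} (hz : 1 / s ≤ ‖z‖) : kap s z = 0 := by
  rw [kap, kap0_zero, mul_zero]
  rw [norm_smul, Real.norm_eq_abs, abs_of_pos hs]
  rw [div_le_iff₀ hs] at hz
  linarith

theorem kap_compact {s : ℝ} (hs : 0 < s) : HasCompactSupport (kap s : E → ℝ) := by
  refine HasCompactSupport.of_support_subset_isCompact (isCompact_closedBall 0 (1 / s)) ?_
  intro z hz
  rw [mem_closedBall_zero_iff]
  by_contra h
  exact hz (kap_zero hs (not_le.1 h).le)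

theorem kap_integrable {s : ℝ} (hs : 0 < s) : Integrable (kap s : E → ℝ) :=
  (kap_continuous s).integrable_of_hasCompactSupport (kap_compact hs)

theorem integral_kap {s : ℝ} (hs : 0 < s) : ∫ z : E, kap s z = 1 := by
  unfold kap
  rw [integral_const_mul, Measure.integral_comp_smul_of_nonneg (μ := (volume : Measure E))
    (f := kap0) (R := s) (hR := hs.le), integral_kap0]
  have : s ^ Module.finrank ℝ E ≠ 0 := pow_ne_zero _ hs.ne'
  simp only [smul_eq_mul, mul_one]
  exact mul_inv_cancel₀ this

theorem mol_eq_conv (s : ℝ) (v : E → F) : mol s v = (kap s ⋆[lsmul ℝ ℝ, volume] v) := by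
  funext x
  rw [convolution_def]
  rfl

theorem mol_eq (s : ℝ) (v : E → F) (x : E) : mol s v x = ∫ y, kap s (x - y) • v y := by
  rw [mol_eq_conv, convolution_eq_swap]
  rfl

/-- The integrand is integrable. -/
theorem kap_smul_integrable {s : ℝ} (hs : 0 < s) {v : E → F} (vc : Continuous v) (x : E) :
    Integrable fun t => kap s t • v (x - t) :=
  ((kap_continuous s).smul (vc.comp (continuous_const.sub continuous_id))).integrable_of_hasCompactSupport
    (kap_compact hs).smul_right

/-- Cauchy - Schwarz for a nonnegative weight. -/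
theorem cs_weight {h f : E → ℝ} (hh : ∀ t, 0 ≤ h t) (h1 : Integrable h)
    (h2 : Integrable fun t => h t * f t) (h3 : Integrable fun t => h t * f t ^ 2) :
    (∫ t, h t * f t) ^ 2 ≤ (∫ t, h t) * ∫ t, h t * f t ^ 2 := by
  have key : ∀ x : ℝ, 0 ≤ (∫ t, h t) * (x * x) + (-2 * ∫ t, h t * f t) * x +
      ∫ t, h t * f t ^ 2 := by
    intro x
    have e : ∫ t, h t * (f t - x) ^ 2 = (∫ t, h t) * (x * x) + (-2 * ∫ t, h t * f t) * x +
        ∫ t, h t * f t ^ 2 := by
      have e1 : ∀ t, h t * (f t - x) ^ 2 =
          ((x * x) * h t + (-2 * x) * (h t * f t)) + h t * f t ^ 2 := fun t => by ring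
      have i1 : Integrable fun t => (x * x) * h t + (-2 * x) * (h t * f t) :=
        (h1.const_mul _).add (h2.const_mul _)
      rw [integral_congr_ae (ae_of_all _ e1), integral_add i1 h3,
        integral_add (h1.const_mul _) (h2.const_mul _), integral_const_mul, integral_const_mul]
      ring
    rw [← e]
    exact integral_nonneg fun t => mul_nonneg (hh t) (sq_nonneg _)
  have := discrim_le_zero key
  rw [discrim] at this
  nlinarith

/-- Young's inequality in the form needed. -/
theorem young {h : E → ℝ} {v : E → F} {T : E → G} (hh : ∀ t, 0 ≤ h t) (hc : Continuous h)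
    (hs : HasCompactSupport h) (vc : Continuous v) (vs : HasCompactSupport v)
    (hT : ∀ x, ‖T x‖ ≤ ∫ t, h t * ‖v (x - t)‖) :
    ∫ x, ‖T x‖ ^ 2 ≤ (∫ t, h t) ^ 2 * ∫ x, ‖v x‖ ^ 2 := by
  have hi : Integrable h := hc.integrable_of_hasCompactSupport hs
  have vi : Integrable (fun x => ‖v x‖ ^ 2) := by
    have i1 : Continuous (fun x => ‖v x‖ ^ 2) := by fun_prop
    have i2 : HasCompactSupport (fun x => ‖v x‖ ^ 2) :=
      vs.comp_left (g := fun r : F => ‖r‖ ^ 2) (by simp)
    exact i1.integrable_of_hasCompactSupport i2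
  have hA : Integrable (h ⋆[lsmul ℝ ℝ, volume] fun x => ‖v x‖ ^ 2) :=
    hi.integrable_convolution (lsmul ℝ ℝ) vi
  have hAi : ∫ x, (h ⋆[lsmul ℝ ℝ, volume] fun x => ‖v x‖ ^ 2) x =
      (∫ t, h t) * ∫ x, ‖v x‖ ^ 2 := by
    rw [integral_convolution (lsmul ℝ ℝ) hi vi]
    rfl
  have hH : 0 ≤ ∫ t, h t := integral_nonneg hh
  calc ∫ x, ‖T x‖ ^ 2
      ≤ ∫ x, (∫ t, h t) * (h ⋆[lsmul ℝ ℝ, volume] fun x => ‖v x‖ ^ 2) x := by
        refine integral_mono_of_nonneg (ae_of_all _ fun x => sq_nonneg _) (hA.const_mul _)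
          (ae_of_all _ fun x => ?_)
        have h2 : Integrable fun t => h t * ‖v (x - t)‖ :=
          (hc.mul (vc.comp (continuous_const.sub continuous_id)).norm).integrable_of_hasCompactSupport
            hs.mul_right
        have h3 : Integrable fun t => h t * ‖v (x - t)‖ ^ 2 :=
          (hc.mul ((vc.comp (continuous_const.sub continuous_id)).norm.pow 2)).integrable_of_hasCompactSupport
            hs.mul_right
        have h4 := cs_weight hh hi h2 h3
        have h5 : (h ⋆[lsmul ℝ ℝ, volume] fun x => ‖v x‖ ^ 2) x =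
            ∫ t, h t * ‖v (x - t)‖ ^ 2 := by
          rw [convolution_def]
          rfl
        have h6 : ‖T x‖ ^ 2 ≤ (∫ t, h t * ‖v (x - t)‖) ^ 2 :=
          pow_le_pow_left₀ (norm_nonneg _) (hT x) 2
        simp only []
        rw [h5]
        exact h6.trans h4
    _ = (∫ t, h t) ^ 2 * ∫ x, ‖v x‖ ^ 2 := by
        rw [integral_const_mul, hAi]; ring

theorem mol_norm_le {s : ℝ} (hs : 0 < s) (v : E → F) (x : E) :
    ‖mol s v x‖ ≤ ∫ t, kap s t * ‖v (x - t)‖ := by
  unfold mol
  refine (norm_integral_le_integral_norm _).trans (le_of_eq ?_)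
  refine integral_congr_ae (ae_of_all _ fun t => ?_)
  simp only [norm_smul, Real.norm_eq_abs, abs_of_nonneg (kap_nonneg hs.le t)]

/-- The `L²` bound of the mollification. -/
theorem mol_sq_le {s : ℝ} (hs : 0 < s) {v : E → F} (vc : Continuous v)
    (vs : HasCompactSupport v) : ∫ x, ‖mol s v x‖ ^ 2 ≤ ∫ x, ‖v x‖ ^ 2 := by
  have := young (T := mol s v) (kap_nonneg hs.le) (kap_continuous s) (kap_compact hs) vc vs
    (fun x => mol_norm_le hs v x)
  rwa [integral_kap hs, one_pow, one_mul] at this

theorem mol_contDiff {s : ℝ} (hs : 0 < s) {v : E → F} (vc : Continuous v) {m : ℕ∞} :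
    ContDiff ℝ m (mol s v) := by
  rw [mol_eq_conv]
  exact (kap_compact hs).contDiff_convolution_left (lsmul ℝ ℝ) (kap_contDiff s)
    vc.locallyIntegrable

theorem mol_continuous {s : ℝ} (hs : 0 < s) {v : E → F} (vc : Continuous v) :
    Continuous (mol s v) := (mol_contDiff (m := 0) hs vc).continuous

/-- The support of the mollification is in the `1 / s` neighbourhood of the support. -/
theorem mol_zero {s : ℝ} (hs : 0 < s) {v : E → F} {x : E}
    (hx : ∀ t : E, ‖t‖ < 1 / s → v (x - t) = 0) : mol s v x = 0 := by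
  unfold mol
  refine integral_eq_zero_of_ae (ae_of_all _ fun t => ?_)
  by_cases ht : ‖t‖ < 1 / s
  · simp [hx t ht]
  · simp [kap_zero hs (not_lt.1 ht)]

theorem mol_support {s : ℝ} (hs : 0 < s) {v : E → F} {K : Set E} (hK : ∀ x, x ∉ K → v x = 0)
    {x : E} (hx : x ∉ cthickening (1 / s) K) : mol s v x = 0 := by
  refine mol_zero hs fun t ht => hK _ fun h => hx ?_
  refine mem_cthickening_of_dist_le x (x - t) _ K h ?_
  rw [dist_eq_norm, sub_sub_cancel]
  exact ht.le

theorem mol_compact {s : ℝ} (hs : 0 < s) {v : E → F} (vs : HasCompactSupport v) :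
    HasCompactSupport (mol s v) := by
  refine HasCompactSupport.intro (K := cthickening (1 / s) (tsupport v))
    vs.isCompact.cthickening fun x hx => ?_
  exact mol_support hs (fun y hy => image_eq_zero_of_notMem_tsupport hy) hx

theorem mol_add {s : ℝ} (hs : 0 < s) {v w : E → F} (vc : Continuous v) (wc : Continuous w) :
    mol s (fun x => v x + w x) = fun x => mol s v x + mol s w x := by
  funext x
  unfold mol
  rw [← integral_add (kap_smul_integrable hs vc x) (kap_smul_integrable hs wc x)]
  refine integral_congr_ae (ae_of_all _ fun t => ?_)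
  simp only [smul_add]

theorem mol_smul (s : ℝ) (c : ℝ) (v : E → F) :
    mol s (fun x => c • v x) = fun x => c • mol s v x := by
  funext x
  unfold mol
  rw [← integral_smul]
  refine integral_congr_ae (ae_of_all _ fun t => ?_)
  simp only []
  rw [smul_comm]

/-- The mollification commutes with constant linear maps. -/
theorem mol_clm [CompleteSpace F] [CompleteSpace G] {s : ℝ} (hs : 0 < s) (T : F →L[ℝ] G)
    {v : E → F} (vc : Continuous v) (x : E) :
    mol s (fun y => T (v y)) x = T (mol s v x) := by
  unfold mol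
  rw [← T.integral_comp_comm (kap_smul_integrable hs vc x)]
  refine integral_congr_ae (ae_of_all _ fun t => ?_)
  simp only [map_smul]

end Pool.Agent.Lib.MP_4a593f_gt.BH.Mol
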