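import Pool.Agent.Lib.MP_4a593f_gt.BH.Mol.Der

/-!
Commutators of mollifications with operator valued functions (Friedrichs), project BH.
`com s B v = B (mol s v) - mol s (B v)`.
* `com_sq_le`: its `L²` norm is at most `L / s` times that of `v`;
* `com_fderiv_sq_le`: the `L²` norm of its derivative is at most `L (1 + D)` times that of `v`.
-/

set_option linter.unusedSectionVars false

namespace Pool.Agent.Lib.MP_4a593f_gt.BH.Mol

open MeasureTheory Filter Topology ContinuousLinearMap Metric
open scoped Convolution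

variable {E : Type*} [NormedAddCommGroup E] [InnerProductSpace ℝ E] [FiniteDimensional ℝ E]
  [MeasurableSpace E] [BorelSpace E]
variable {F : Type*} [NormedAddCommGroup F] [NormedSpace ℝ F] [CompleteSpace F]
variable {G : Type*} [NormedAddCommGroup G] [NormedSpace ℝ G] [CompleteSpace G]

/-- The commutator. -/
noncomputable def com (s : ℝ) (B : E → F →L[ℝ] G) (v : E → F) (x : E) : G :=
  B x (mol s v x) - mol s (fun y => B y (v y)) x

theorem com_contDiff {s : ℝ} (hs : 0 < s) {m : ℕ∞} {B : E → F →L[ℝ] G} {v : E → F}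
    (hB : ContDiff ℝ m B) (vc : Continuous v) : ContDiff ℝ m (com s B v) :=
  (hB.clm_apply (mol_contDiff hs vc)).sub (mol_contDiff hs (hB.continuous.clm_apply vc))

theorem com_support {s : ℝ} (hs : 0 < s) (B : E → F →L[ℝ] G) {v : E → F} {K : Set E}
    (hK : ∀ x, x ∉ K → v x = 0) {x : E} (hx : x ∉ cthickening (1 / s) K) : com s B v x = 0 := by
  unfold com
  rw [mol_support hs hK hx, mol_support hs (K := K) (fun y hy => by rw [hK y hy, map_zero]) hx,
    map_zero, sub_zero]

theorem com_compact {s : ℝ} (hs : 0 < s) (B : E → F →L[ℝ] G) {v : E → F}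
    (vs : HasCompactSupport v) : HasCompactSupport (com s B v) := by
  refine HasCompactSupport.intro (K := cthickening (1 / s) (tsupport v))
    vs.isCompact.cthickening fun x hx => ?_
  exact com_support hs B (fun y hy => image_eq_zero_of_notMem_tsupport hy) hx

theorem com_eq {s : ℝ} (hs : 0 < s) {B : E → F →L[ℝ] G} {v : E → F} (Bc : Continuous B)
    (vc : Continuous v) (x : E) :
    com s B v x = ∫ t, kap s t • (B x - B (x - t)) (v (x - t)) := by
  unfold com
  rw [mol, ← (B x).integral_comp_comm (kap_smul_integrable hs vc x), mol, ← integral_sub]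
  · refine integral_congr_ae (ae_of_all _ fun t => ?_)
    simp only [map_smul, sub_apply, smul_sub]
  · refine Continuous.integrable_of_hasCompactSupport ?_ ?_
    · exact (B x).continuous.comp ((kap_continuous s).smul
        (vc.comp (continuous_const.sub continuous_id)))
    · refine (kap_compact hs).mono fun t ht h1 => ht ?_
      simp [h1]
  · exact kap_smul_integrable hs (Bc.clm_apply vc) x

theorem com_norm_le {s L : ℝ} (hs : 0 < s) (hL0 : 0 ≤ L) {B : E → F →L[ℝ] G} {v : E → F}
    (Bc : Continuous B) (hL : ∀ x y, ‖B x - B y‖ ≤ L * ‖x - y‖) (vc : Continuous v) (x : E) :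
    ‖com s B v x‖ ≤ ∫ t, (L / s * kap s t) * ‖v (x - t)‖ := by
  rw [com_eq hs Bc vc]
  refine norm_integral_le_of_norm_le ?_ (ae_of_all _ fun t => ?_)
  · refine Continuous.integrable_of_hasCompactSupport ?_ ?_
    · exact (continuous_const.mul (kap_continuous s)).mul
        (vc.comp (continuous_const.sub continuous_id)).norm
    · refine (kap_compact hs).mono fun t ht h1 => ht ?_
      simp [h1]
  · rw [norm_smul, Real.norm_eq_abs, abs_of_nonneg (kap_nonneg hs.le t)]
    by_cases ht : 1 / s ≤ ‖t‖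
    · rw [kap_zero hs ht, zero_mul, mul_zero, zero_mul]
    · have h1 : ‖(B x - B (x - t)) (v (x - t))‖ ≤ L * ‖t‖ * ‖v (x - t)‖ := by
        refine (le_opNorm _ _).trans (mul_le_mul_of_nonneg_right ?_ (norm_nonneg _))
        have := hL x (x - t)
        rwa [sub_sub_cancel] at this
      have h2 : L * ‖t‖ ≤ L / s := by
        rw [div_eq_mul_one_div]
        exact mul_le_mul_of_nonneg_left (not_le.1 ht).le hL0
      calc kap s t * ‖(B x - B (x - t)) (v (x - t))‖ ≤ kap s t * (L / s * ‖v (x - t)‖) :=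
            mul_le_mul_of_nonneg_left (h1.trans (mul_le_mul_of_nonneg_right h2 (norm_nonneg _)))
              (kap_nonneg hs.le t)
        _ = L / s * kap s t * ‖v (x - t)‖ := by ring

/-- The commutator is `O(1 / s)` in `L²`. -/
theorem com_sq_le {s L : ℝ} (hs : 0 < s) (hL0 : 0 ≤ L) {B : E → F →L[ℝ] G} {v : E → F}
    (Bc : Continuous B) (hL : ∀ x y, ‖B x - B y‖ ≤ L * ‖x - y‖) (vc : Continuous v)
    (vs : HasCompactSupport v) : ∫ x, ‖com s B v x‖ ^ 2 ≤ (L / s) ^ 2 * ∫ x, ‖v x‖ ^ 2 := by
  have h := young (T := com s B v) (h := fun t => L / s * kap s t)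
    (fun t => mul_nonneg (by positivity) (kap_nonneg hs.le t))
    (continuous_const.mul (kap_continuous s)) (kap_compact hs).mul_left vc vs
    (fun x => com_norm_le hs hL0 Bc hL vc x)
  rwa [integral_const_mul, integral_kap hs, mul_one] at h

/-- The derivative of the commutator, all derivatives on the kernel and on `B`. -/
theorem com_fderiv_kap {s : ℝ} (hs : 0 < s) {B : E → F →L[ℝ] G} {v : E → F}
    (hB : ContDiff ℝ 1 B) (vc : Continuous v) (x e : E) :
    fderiv ℝ (com s B v) x e = fderiv ℝ B x e (mol s v x) +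
      ∫ t, fderiv ℝ (kap s : E → ℝ) t e • (B x - B (x - t)) (v (x - t)) := by
  have hm : DifferentiableAt ℝ (mol s v) x :=
    ((mol_contDiff (m := 1) hs vc).differentiable one_ne_zero) x
  have hbv : Continuous fun y => B y (v y) := hB.continuous.clm_apply vc
  have hm2 : DifferentiableAt ℝ (mol s fun y => B y (v y)) x :=
    ((mol_contDiff (m := 1) hs hbv).differentiable one_ne_zero) x
  have hBd : DifferentiableAt ℝ B x := (hB.differentiable one_ne_zero) x
  have h1 : fderiv ℝ (com s B v) x e = B x (fderiv ℝ (mol s v) x e) +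
      fderiv ℝ B x e (mol s v x) - fderiv ℝ (mol s fun y => B y (v y)) x e := by
    have h2 := (hBd.hasFDerivAt.clm_apply hm.hasFDerivAt).sub hm2.hasFDerivAt
    have h3 : fderiv ℝ (com s B v) x = _ := h2.fderiv
    rw [h3]
    rfl
  have vi : Integrable fun t => fderiv ℝ (kap s : E → ℝ) t e • v (x - t) :=
    fderiv_kap_integrable hs (vc.comp (continuous_const.sub continuous_id)) e
  rw [h1, mol_fderiv_kap hs vc, mol_fderiv_kap hs hbv, ← (B x).integral_comp_comm vi]
  have h4 : ∫ t, fderiv ℝ (kap s : E → ℝ) t e • (B x - B (x - t)) (v (x - t)) =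
      (∫ t, (B x) (fderiv ℝ (kap s : E → ℝ) t e • v (x - t))) -
      ∫ t, fderiv ℝ (kap s : E → ℝ) t e • B (x - t) (v (x - t)) := by
    have vj : Integrable fun t => fderiv ℝ (kap s : E → ℝ) t e • B (x - t) (v (x - t)) :=
      fderiv_kap_integrable hs (hbv.comp (continuous_const.sub continuous_id)) e
    rw [← integral_sub ((B x).integrable_comp vi) vj]
    refine integral_congr_ae (ae_of_all _ fun t => ?_)
    simp only [map_smul, sub_apply, smul_sub]
  rw [h4]
  abel

/-- `D_s`, in fact independent of `s`. -/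
noncomputable def dk (E : Type*) [NormedAddCommGroup E] [InnerProductSpace ℝ E]
    [FiniteDimensional ℝ E] [MeasurableSpace E] [BorelSpace E] (s : ℝ) : ℝ :=
  ∫ t : E, ‖fderiv ℝ (kap s : E → ℝ) t‖ * ‖t‖

theorem fderiv_kap (s : ℝ) (t : E) :
    fderiv ℝ (kap s : E → ℝ) t = s ^ (Module.finrank ℝ E) • s • fderiv ℝ (kap0 : E → ℝ) (s • t) := by
  have h0 : DifferentiableAt ℝ (kap0 : E → ℝ) (s • t) :=
    ((kap0_contDiff (m := 1)).differentiable one_ne_zero) _
  have h1 : HasFDerivAt (fun z : E => s • z) (s • ContinuousLinearMap.id ℝ E) t :=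
    (hasFDerivAt_id t).const_smul s
  have h2 := (h0.hasFDerivAt.comp t h1).const_mul (s ^ (Module.finrank ℝ E))
  have h3 : fderiv ℝ (kap s : E → ℝ) t = _ := h2.fderiv
  rw [h3]
  ext e
  simp

theorem dk_eq {s : ℝ} (hs : 0 < s) : dk E s = ∫ t : E, ‖fderiv ℝ (kap0 : E → ℝ) t‖ * ‖t‖ := by
  have h : ∀ t : E, ‖fderiv ℝ (kap s : E → ℝ) t‖ * ‖t‖ =
      s ^ (Module.finrank ℝ E) * (‖fderiv ℝ (kap0 : E → ℝ) (s • t)‖ * ‖s • t‖) := by
    intro t
    rw [fderiv_kap, norm_smul, norm_smul, norm_smul, Real.norm_eq_abs, Real.norm_eq_abs,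
      abs_of_pos hs, abs_of_pos (pow_pos hs _)]
    ring
  unfold dk
  rw [integral_congr_ae (ae_of_all _ h), integral_const_mul,
    Measure.integral_comp_smul_of_nonneg (μ := (volume : Measure E))
      (f := fun z : E => ‖fderiv ℝ (kap0 : E → ℝ) z‖ * ‖z‖) (R := s) (hR := hs.le), smul_eq_mul,
    ← mul_assoc, mul_inv_cancel₀ (pow_ne_zero _ hs.ne'), one_mul]

/-- **Friedrichs' commutator bound.** -/
theorem com_fderiv_sq_le {s L : ℝ} (hs : 0 < s) (hL0 : 0 ≤ L) {B : E → F →L[ℝ] G} {v : E → F}
    (hB : ContDiff ℝ 1 B) (hL : ∀ x y, ‖B x - B y‖ ≤ L * ‖x - y‖) (vc : Continuous v)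
    (vs : HasCompactSupport v) :
    ∫ x, ‖fderiv ℝ (com s B v) x‖ ^ 2 ≤ (L * (1 + dk E s)) ^ 2 * ∫ x, ‖v x‖ ^ 2 := by
  have hLf : ∀ x, ‖fderiv ℝ B x‖ ≤ L := fun x => norm_fderiv_le_of_lip' ℝ hL0
    (Filter.Eventually.of_forall fun y => by simpa using hL y x)
  have hk : Continuous fun t : E => ‖fderiv ℝ (kap s : E → ℝ) t‖ * ‖t‖ :=
    (fderiv_kap_continuous s).norm.mul continuous_norm
  have hks : HasCompactSupport fun t : E => ‖fderiv ℝ (kap s : E → ℝ) t‖ * ‖t‖ :=
    (fderiv_kap_compact hs).norm.mul_right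
  have hc : Continuous fun t : E => L * (kap s t + ‖fderiv ℝ (kap s : E → ℝ) t‖ * ‖t‖) :=
    continuous_const.mul ((kap_continuous s).add hk)
  have hcs : HasCompactSupport fun t : E => L * (kap s t + ‖fderiv ℝ (kap s : E → ℝ) t‖ * ‖t‖) :=
    ((kap_compact hs).add hks).mul_left
  have h := young (T := fun x => fderiv ℝ (com s B v) x)
    (h := fun t => L * (kap s t + ‖fderiv ℝ (kap s : E → ℝ) t‖ * ‖t‖))
    (fun t => mul_nonneg hL0 (add_nonneg (kap_nonneg hs.le t)
      (mul_nonneg (norm_nonneg _) (norm_nonneg _)))) hc hcs vc vs fun x => ?_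
  · rw [integral_const_mul, integral_add (kap_integrable hs)
      (hk.integrable_of_hasCompactSupport hks), integral_kap hs] at h
    exact h
  · have hi0 : Integrable fun t => kap s t * ‖v (x - t)‖ :=
      ((kap_continuous s).mul (vc.comp (continuous_const.sub continuous_id)).norm).integrable_of_hasCompactSupport
        (kap_compact hs).mul_right
    have hi1 : Integrable fun t => (‖fderiv ℝ (kap s : E → ℝ) t‖ * ‖t‖) * ‖v (x - t)‖ :=
      (hk.mul (vc.comp (continuous_const.sub continuous_id)).norm).integrable_of_hasCompactSupport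
        hks.mul_right
    have e1 : ∫ t, L * (kap s t + ‖fderiv ℝ (kap s : E → ℝ) t‖ * ‖t‖) * ‖v (x - t)‖ =
        L * (∫ t, kap s t * ‖v (x - t)‖) +
        L * ∫ t, (‖fderiv ℝ (kap s : E → ℝ) t‖ * ‖t‖) * ‖v (x - t)‖ := by
      rw [← mul_add, ← integral_add hi0 hi1, ← integral_const_mul]
      refine integral_congr_ae (ae_of_all _ fun t => ?_)
      simp only []
      ring
    rw [e1]
    refine ContinuousLinearMap.opNorm_le_bound _ (add_nonneg
      (mul_nonneg hL0 (integral_nonneg fun t => mul_nonneg (kap_nonneg hs.le t) (norm_nonneg _)))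
      (mul_nonneg hL0 (integral_nonneg fun t => mul_nonneg
        (mul_nonneg (norm_nonneg _) (norm_nonneg _)) (norm_nonneg _)))) fun e => ?_
    rw [com_fderiv_kap hs hB vc, add_mul]
    refine (norm_add_le _ _).trans (add_le_add ?_ ?_)
    · have h5 : ‖fderiv ℝ B x e (mol s v x)‖ ≤ L * ‖e‖ * ∫ t, kap s t * ‖v (x - t)‖ :=
        (le_opNorm _ _).trans (mul_le_mul ((le_opNorm _ _).trans
          (mul_le_mul_of_nonneg_right (hLf x) (norm_nonneg _))) (mol_norm_le hs v x)
          (norm_nonneg _) (mul_nonneg hL0 (norm_nonneg _)))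
      refine h5.trans (le_of_eq (by ring))
    · rw [← integral_const_mul, ← integral_mul_const]
      refine norm_integral_le_of_norm_le ((hi1.const_mul L).mul_const ‖e‖)
        (ae_of_all _ fun t => ?_)
      rw [norm_smul]
      have h6 : ‖(B x - B (x - t)) (v (x - t))‖ ≤ L * ‖t‖ * ‖v (x - t)‖ := by
        refine (le_opNorm _ _).trans (mul_le_mul_of_nonneg_right ?_ (norm_nonneg _))
        have := hL x (x - t)
        rwa [sub_sub_cancel] at this
      refine (mul_le_mul (le_opNorm _ _) h6 (norm_nonneg _)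
        (mul_nonneg (norm_nonneg _) (norm_nonneg _))).trans (le_of_eq ?_)
      ring

end Pool.Agent.Lib.MP_4a593f_gt.BH.Mol
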