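import Pool.Agent.Lib.MP_4a593f_gt.BH.Mol.Basic
import Mathlib.Analysis.Calculus.DifferentialForm.Basic

/-!
Derivatives of mollifications, exterior derivatives, symmetry (project BH).
-/

set_option linter.unusedSectionVars false

namespace Pool.Agent.Lib.MP_4a593f_gt.BH.Mol

open MeasureTheory Filter Topology ContinuousLinearMap Metric
open scoped Convolution

variable {E : Type*} [NormedAddCommGroup E] [InnerProductSpace ℝ E] [FiniteDimensional ℝ E]
  [MeasurableSpace E] [BorelSpace E]
variable {F : Type*} [NormedAddCommGroup F] [NormedSpace ℝ F] [CompleteSpace F]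
variable {G : Type*} [NormedAddCommGroup G] [NormedSpace ℝ G] [CompleteSpace G]
variable {H : Type*} [NormedAddCommGroup H] [NormedSpace ℝ H] [CompleteSpace H]

/-- The derivative of the mollification, falling on the function. -/
theorem mol_hasFDerivAt (s : ℝ) {v : E → F} (hv : ContDiff ℝ 1 v)
    (vs : HasCompactSupport v) (x : E) :
    HasFDerivAt (mol s v) (mol s (fderiv ℝ v) x) x := by
  have h := (vs.hasFDerivAt_convolution_right (lsmul ℝ ℝ) (μ := volume)
    (kap_continuous s).locallyIntegrable hv x)
  rw [mol_eq_conv s v]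
  refine h.congr_fderiv ?_
  rw [convolution_def]
  unfold mol
  refine integral_congr_ae (ae_of_all _ fun t => ?_)
  ext e
  rfl

theorem mol_fderiv (s : ℝ) {v : E → F} (hv : ContDiff ℝ 1 v)
    (vs : HasCompactSupport v) (x : E) :
    fderiv ℝ (mol s v) x = mol s (fderiv ℝ v) x := (mol_hasFDerivAt s hv vs x).fderiv

theorem mol_fderiv_apply {s : ℝ} (hs : 0 < s) {v : E → F} (hv : ContDiff ℝ 1 v)
    (vs : HasCompactSupport v) (x e : E) :
    fderiv ℝ (mol s v) x e = mol s (fun y => fderiv ℝ v y e) x := by
  rw [mol_fderiv s hv vs]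
  exact (mol_clm hs (ContinuousLinearMap.apply ℝ F e) (hv.continuous_fderiv one_ne_zero) x).symm

/-- The exterior derivative commutes with the mollification. -/
theorem mol_extDeriv {s : ℝ} (hs : 0 < s) {p : ℕ} {v : E → E [⋀^Fin p]→L[ℝ] F}
    (hv : ContDiff ℝ 1 v) (vs : HasCompactSupport v) (x : E) :
    extDeriv (mol s v) x = mol s (extDeriv v) x := by
  unfold extDeriv
  rw [mol_fderiv s hv vs]
  exact (mol_clm hs (ContinuousAlternatingMap.alternatizeUncurryFinCLM ℝ E F)
    (hv.continuous_fderiv one_ne_zero) x).symm

theorem fderiv_kap_continuous (s : ℝ) : Continuous (fderiv ℝ (kap s : E → ℝ)) :=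
  (kap_contDiff (m := 1) s).continuous_fderiv one_ne_zero

theorem fderiv_kap_compact {s : ℝ} (hs : 0 < s) : HasCompactSupport (fderiv ℝ (kap s : E → ℝ)) :=
  (kap_compact hs).fderiv ℝ

/-- The integrand with the derivative on the kernel. -/
theorem fderiv_kap_integrable {s : ℝ} (hs : 0 < s) {w : E → F} (wc : Continuous w) (e : E) :
    Integrable fun t => fderiv ℝ (kap s : E → ℝ) t e • w t := by
  refine Continuous.integrable_of_hasCompactSupport ?_ ?_
  · exact ((fderiv_kap_continuous s).clm_apply continuous_const).smul wc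
  · refine (fderiv_kap_compact hs).mono fun t ht h1 => ht ?_
    simp [h1]

/-- The derivative of the mollification, falling on the kernel. -/
theorem mol_fderiv_kap {s : ℝ} (hs : 0 < s) {v : E → F} (vc : Continuous v) (x e : E) :
    fderiv ℝ (mol s v) x e = ∫ t, fderiv ℝ (kap s : E → ℝ) t e • v (x - t) := by
  have h := ((kap_compact hs).hasFDerivAt_convolution_left (lsmul ℝ ℝ) (μ := volume)
    (kap_contDiff s) vc.locallyIntegrable x).fderiv
  rw [mol_eq_conv s v, h, convolution_def]
  have hi : Integrable (fun t => ((lsmul ℝ ℝ : ℝ →L[ℝ] F →L[ℝ] F).precompL E)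
      (fderiv ℝ (kap s : E → ℝ) t) (v (x - t))) := by
    refine Continuous.integrable_of_hasCompactSupport ?_ ?_
    · exact (((lsmul ℝ ℝ : ℝ →L[ℝ] F →L[ℝ] F).precompL E).continuous.comp
        (fderiv_kap_continuous s)).clm_apply (vc.comp (continuous_const.sub continuous_id))
    · refine (fderiv_kap_compact hs).mono fun t ht h1 => ht ?_
      simp only [h1, map_zero, zero_apply]
  rw [ContinuousLinearMap.integral_apply hi e]
  rfl

/-- `C_s` of the next theorem. -/
noncomputable def dkap (E : Type*) [NormedAddCommGroup E] [InnerProductSpace ℝ E]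
    [FiniteDimensional ℝ E] [MeasurableSpace E] [BorelSpace E] (s : ℝ) : ℝ :=
  ∫ t : E, ‖fderiv ℝ (kap s : E → ℝ) t‖

/-- For a fixed kernel the derivative of the mollification is bounded in `L²`. -/
theorem mol_fderiv_sq_le {s : ℝ} (hs : 0 < s) {v : E → F} (vc : Continuous v)
    (vs : HasCompactSupport v) :
    ∫ x, ‖fderiv ℝ (mol s v) x‖ ^ 2 ≤ dkap E s ^ 2 * ∫ x, ‖v x‖ ^ 2 := by
  have h0 := (fderiv_kap_compact (E := E) hs).norm
  refine young (T := fun x => fderiv ℝ (mol s v) x) (fun t => norm_nonneg _)
    (fderiv_kap_continuous s).norm h0 vc vs fun x => ?_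
  refine ContinuousLinearMap.opNorm_le_bound _
    (integral_nonneg fun t => mul_nonneg (norm_nonneg _) (norm_nonneg _)) fun e => ?_
  rw [mol_fderiv_kap hs vc, ← integral_mul_const]
  refine norm_integral_le_of_norm_le ?_ (ae_of_all _ fun t => ?_)
  · refine Continuous.integrable_of_hasCompactSupport ?_ ?_
    · exact ((fderiv_kap_continuous s).norm.mul
        (vc.comp (continuous_const.sub continuous_id)).norm).mul continuous_const
    · exact h0.mul_right.mul_right
  · rw [norm_smul, mul_right_comm]
    exact mul_le_mul_of_nonneg_right (le_opNorm _ _) (norm_nonneg _)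

/-- The mollification is symmetric. -/
theorem mol_adj {s : ℝ} (hs : 0 < s) (L : F →L[ℝ] G →L[ℝ] H) {v : E → F} {w : E → G}
    (vc : Continuous v) (wc : Continuous w) (ws : HasCompactSupport w) :
    ∫ x, L (mol s v x) (w x) = ∫ x, L (v x) (mol s w x) := by
  have e1 : ∫ x, L (mol s v x) (w x) = ∫ x, ∫ y, kap s (x - y) • L (v y) (w x) := by
    refine integral_congr_ae (ae_of_all _ fun x => ?_)
    simp only []
    rw [mol_eq]
    have i1 : Integrable fun y => kap s (x - y) • v y := by
      refine Continuous.integrable_of_hasCompactSupport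
        (((kap_continuous s).comp (continuous_const.sub continuous_id)).smul vc) ?_
      refine HasCompactSupport.of_support_subset_isCompact
        (isCompact_closedBall x (1 / s)) fun y hy => ?_
      rw [mem_closedBall, dist_comm, dist_eq_norm]
      by_contra h3
      exact hy (by simp [kap_zero hs (not_le.1 h3).le])
    have h := ContinuousLinearMap.integral_comp_comm (L.flip (w x)) i1
    simp only [flip_apply, map_smul] at h
    exact h.symm
  have e2 : ∫ x, L (v x) (mol s w x) = ∫ y, ∫ x, kap s (x - y) • L (v y) (w x) := by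
    refine integral_congr_ae (ae_of_all _ fun y => ?_)
    simp only []
    rw [mol_eq]
    have i1 : Integrable fun x => kap s (y - x) • w x :=
      Continuous.integrable_of_hasCompactSupport
        (((kap_continuous s).comp (continuous_const.sub continuous_id)).smul wc) ws.smul_left
    have h := ContinuousLinearMap.integral_comp_comm (L (v y)) i1
    simp only [map_smul] at h
    rw [← h]
    refine integral_congr_ae (ae_of_all _ fun x => ?_)
    simp only []
    rw [← kap_neg s (x - y), neg_sub]
  rw [e1, e2]
  refine integral_integral_swap ?_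
  refine Continuous.integrable_of_hasCompactSupport ?_ ?_
  · exact ((kap_continuous s).comp (continuous_fst.sub continuous_snd)).smul
      ((L.continuous.comp (vc.comp continuous_snd)).clm_apply (wc.comp continuous_fst))
  · refine HasCompactSupport.of_support_subset_isCompact
      (ws.isCompact.prod (ws.isCompact.cthickening (r := 1 / s))) ?_
    rintro ⟨x, y⟩ hxy
    have h1 : w x ≠ 0 := fun h => hxy (by simp [Function.uncurry, h])
    have h2 : kap s (x - y) ≠ 0 := fun h => hxy (by simp [Function.uncurry, h])
    refine ⟨subset_tsupport _ h1, ?_⟩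
    refine mem_cthickening_of_dist_le y x _ _ (subset_tsupport _ h1) ?_
    rw [dist_comm, dist_eq_norm]
    by_contra h3
    exact h2 (kap_zero hs (not_le.1 h3).le)

end Pool.Agent.Lib.MP_4a593f_gt.BH.Mol
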