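import Pool.Agent.Lib.MP_4a593f_gt.BH.Mol.Lim

/-!
Uniform and `L²` convergence of the mollifications of continuous functions, project BH.
-/

set_option linter.unusedSectionVars false

namespace Pool.Agent.Lib.MP_4a593f_gt.BH.Mol

open MeasureTheory Filter Topology ContinuousLinearMap Metric

variable {E : Type*} [NormedAddCommGroup E] [InnerProductSpace ℝ E] [FiniteDimensional ℝ E]
  [MeasurableSpace E] [BorelSpace E]
variable {F : Type*} [NormedAddCommGroup F] [NormedSpace ℝ F] [CompleteSpace F]

theorem mol_sub_le_of_near {s ε : ℝ} (hs : 0 < s) {v : E → F} (vc : Continuous v) (x : E)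
    (h : ∀ t : E, ‖t‖ < 1 / s → ‖v (x - t) - v x‖ ≤ ε) : ‖mol s v x - v x‖ ≤ ε := by
  have i1 : Integrable fun t : E => kap s t • v x := (kap_integrable hs).smul_const (v x)
  have h1 : mol s v x - v x = ∫ t, kap s t • (v (x - t) - v x) := by
    have h2 : v x = ∫ t : E, kap s t • v x := by
      rw [integral_smul_const, integral_kap hs, one_smul]
    conv_lhs => rw [h2]
    unfold mol
    rw [← integral_sub (kap_smul_integrable hs vc x) i1]
    refine integral_congr_ae (ae_of_all _ fun t => ?_)
    simp only [smul_sub]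
  rw [h1]
  have h3 : ∫ t : E, kap s t * ε = ε := by
    rw [integral_mul_const, integral_kap hs, one_mul]
  rw [← h3]
  refine norm_integral_le_of_norm_le ((kap_integrable hs).mul_const _) (ae_of_all _ fun t => ?_)
  rw [norm_smul, Real.norm_eq_abs, abs_of_nonneg (kap_nonneg hs.le t)]
  by_cases ht : 1 / s ≤ ‖t‖
  · rw [kap_zero hs ht, zero_mul, zero_mul]
  · exact mul_le_mul_of_nonneg_left (h t (not_le.1 ht)) (kap_nonneg hs.le t)

/-- Uniform convergence. -/
theorem mol_unif {v : E → F} (vc : Continuous v) (vs : HasCompactSupport v) {ε : ℝ}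
    (hε : 0 < ε) : ∀ᶠ s : ℝ in atTop, ∀ x, ‖mol s v x - v x‖ ≤ ε := by
  have hu : UniformContinuous v := vs.uniformContinuous_of_continuous vc
  rw [Metric.uniformContinuous_iff] at hu
  obtain ⟨δ, hδ, h⟩ := hu ε hε
  filter_upwards [eventually_gt_atTop (0 : ℝ), eventually_ge_atTop (1 / δ)] with s hs hs' x
  refine mol_sub_le_of_near hs vc x fun t ht => ?_
  have h1 : dist (x - t) x < δ := by
    rw [dist_eq_norm, sub_sub_cancel_left, norm_neg]
    refine ht.trans_le ?_
    rw [div_le_iff₀ hs]
    rw [div_le_iff₀ hδ] at hs'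
    linarith
  have h2 := h h1
  rw [dist_eq_norm] at h2
  exact h2.le

/-- Convergence in `L²`. -/
theorem mol_tendsto_cont {v : E → F} (vc : Continuous v) (vs : HasCompactSupport v) :
    Tendsto (fun s => ∫ x, ‖mol s v x - v x‖ ^ 2) atTop (𝓝 0) := by
  have hK : IsCompact (cthickening 1 (tsupport v) : Set E) := vs.isCompact.cthickening
  set V := (volume (cthickening 1 (tsupport v) : Set E)).toReal with hV
  have hV0 : 0 ≤ V := ENNReal.toReal_nonneg
  rw [Metric.tendsto_nhds]
  intro ε hε
  have hη : 0 < Real.sqrt (ε / (2 * (V + 1))) := Real.sqrt_pos.2 (by positivity)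
  filter_upwards [mol_unif vc vs hη, eventually_ge_atTop (1 : ℝ)] with s h hs
  have hs0 : 0 < s := by linarith
  have h1 : ∀ x, x ∉ (cthickening 1 (tsupport v) : Set E) → ‖mol s v x - v x‖ ^ 2 = 0 := by
    intro x hx
    have h2 : mol s v x = 0 := by
      refine mol_support hs0 (K := tsupport v)
        (fun y hy => image_eq_zero_of_notMem_tsupport hy) fun h => hx ?_
      refine cthickening_mono ?_ _ h
      rw [div_le_one hs0]
      exact hs
    have h3 : v x = 0 := image_eq_zero_of_notMem_tsupport fun h =>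
      hx (self_subset_cthickening _ h)
    rw [h2, h3]; simp
  have hc : Continuous fun x => ‖mol s v x - v x‖ ^ 2 :=
    ((mol_continuous hs0 vc).sub vc).norm.pow 2
  have hle : ∫ x, ‖mol s v x - v x‖ ^ 2 ≤ ε / (2 * (V + 1)) * V := by
    rw [← setIntegral_eq_integral_of_forall_compl_eq_zero h1]
    calc ∫ x in (cthickening 1 (tsupport v) : Set E), ‖mol s v x - v x‖ ^ 2
        ≤ ∫ x in (cthickening 1 (tsupport v) : Set E), ε / (2 * (V + 1)) := by
          refine setIntegral_mono (hc.continuousOn.integrableOn_compact hK)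
            (integrableOn_const (hs := hK.measure_lt_top.ne)) fun x => ?_
          have h4 := pow_le_pow_left₀ (norm_nonneg _) (h x) 2
          rwa [Real.sq_sqrt (by positivity)] at h4
      _ = _ := by
          rw [setIntegral_const, smul_eq_mul, mul_comm]
          rfl
  have h0 : 0 ≤ ∫ x, ‖mol s v x - v x‖ ^ 2 := integral_nonneg fun x => sq_nonneg _
  rw [Real.dist_eq, sub_zero, abs_of_nonneg h0]
  refine hle.trans_lt ?_
  rw [div_mul_eq_mul_div, div_lt_iff₀ (by positivity)]
  nlinarith

end Pool.Agent.Lib.MP_4a593f_gt.BH.Mol
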